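import Pool.Agent.H92.EHD.TP

/-!
# The mean of the pull-backs of a density by the group (EPA)
-/

set_option autoImplicit false

open MeasureTheory Pool.Agent.H92.EQ Pool.Agent.H92.EHD

namespace Pool.Agent.H13.EHD

theorem ev_lin {N : ℕ} (A : Matrix (Fin N) (Fin N) ℂ) (z : Fin N → ℂ) :
    ev (lin A) z = A.mulVec z := by
  funext i
  simp [ev, lin, Matrix.mulVec, dotProduct]

theorem jac_lin {N : ℕ} (A : Matrix (Fin N) (Fin N) ℂ) (z : Fin N → ℂ) :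
    jac (lin A) z = A := by
  ext i a
  simp only [jac, lin, map_sum, Derivation.leibniz, MvPolynomial.pderiv_C,
    MvPolynomial.pderiv_X, smul_eq_mul]
  rw [Finset.sum_eq_single a]
  · simp
  · intro b _ hb
    rw [Pi.single_apply, if_neg (fun h => hb (h : b = a))]
    simp
  · intro h
    exact absurd (Finset.mem_univ a) h

theorem ev_cont {N : ℕ} (Φ : Fin N → MvPolynomial (Fin N) ℂ) : Continuous (ev Φ) :=
  continuous_pi fun i => (Φ i).continuous_eval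

theorem jac_cont {N : ℕ} (Φ : Fin N → MvPolynomial (Fin N) ℂ) : Continuous (jac Φ) :=
  continuous_pi fun i => continuous_pi fun a => (MvPolynomial.pderiv a (Φ i)).continuous_eval

theorem meas_of_cont {N : ℕ} {f : (Fin N → ℂ) → ℝ} (hf : ContinuousOn f {0}ᶜ) :
    Measurable f := by
  classical
  have h1 : Measurable (({0}ᶜ : Set (Fin N → ℂ)).piecewise f f) :=
    hf.measurable_piecewise (by
      rw [compl_compl]
      exact continuousOn_singleton f 0) (MeasurableSet.singleton (0 : Fin N → ℂ)).compl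
  rwa [Set.piecewise_same] at h1

theorem ofReal_int_le {α : Type} [MeasurableSpace α] {μ : Measure α} (f : α → ℝ) :
    ENNReal.ofReal (∫ x, f x ∂μ) ≤ ∫⁻ x, ENNReal.ofReal (f x) ∂μ := by
  by_cases hf : Integrable f μ
  · rw [integral_eq_lintegral_pos_part_sub_lintegral_neg_part hf]
    refine (ENNReal.ofReal_le_ofReal ?_).trans ENNReal.ofReal_toReal_le
    have := ENNReal.toReal_nonneg (a := ∫⁻ a, ENNReal.ofReal (-f a) ∂μ)
    linarith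
  · rw [integral_undef hf, ENNReal.ofReal_zero]
    exact zero_le

theorem e1_apply {k : ℕ} (X : Fin (k + 1) → Fin (k + 1) → ℂ) (i j : Fin (k + 1)) :
    e1 X i j = if i = 0 then (if (j : ℕ) < 1 then X 0 j else 0) else X i j := by
  unfold e1 cut row0
  rw [Matrix.of_apply, Function.update_apply]
  split_ifs with h1 h2
  · simp only [if_pos h2]
  · simp only [if_neg h2]
  · rfl

theorem e1_cont {k : ℕ} : Continuous fun X : Fin (k + 1) → Fin (k + 1) → ℂ => e1 X := by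
  refine continuous_pi fun i => continuous_pi fun j => ?_
  simp only [e1_apply]
  split_ifs
  · exact (continuous_apply j).comp (continuous_apply 0)
  · exact continuous_const
  · exact (continuous_apply j).comp (continuous_apply i)

theorem e1_det {k : ℕ} (X : Fin (k + 1) → Fin (k + 1) → ℂ) :
    (e1 X).det = X 0 0 * (Matrix.of fun i j : Fin k => X i.succ j.succ).det := by
  rw [Matrix.det_succ_row_zero, Finset.sum_eq_single 0]
  · rw [e1_apply, if_pos rfl, if_pos (by simp)]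
    simp only [Fin.val_zero, pow_zero, one_mul]
    congr 2
  · intro j _ hj
    rw [e1_apply, if_pos rfl, if_neg, mul_zero, zero_mul]
    intro h
    exact hj (Fin.ext (by simpa using h))
  · intro h
    exact absurd (Finset.mem_univ _) h

theorem rep_det {k : ℕ} (X : Fin (k + 1) → Fin (k + 1) → ℂ) :
    (Matrix.of (rep X 0 0 1)).det - (Matrix.of (rep X 0 0 0)).det =
      (Matrix.of fun i j : Fin k => X i.succ j.succ).det := by
  have h1 : ∀ t : ℂ, (Matrix.of (rep X 0 0 t)).det =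
      t * (Matrix.of fun i j : Fin k => X i.succ j.succ).det +
        ∑ j : Fin k, (-1) ^ ((j.succ : Fin (k + 1)) : ℕ) * X 0 j.succ *
          (Matrix.of fun i l : Fin k => X i.succ (j.succ.succAbove l)).det := by
    intro t
    rw [Matrix.det_succ_row_zero, Fin.sum_univ_succ]
    congr 1
    simp only [Matrix.of_apply, rep, Function.update_self, Fin.val_zero, pow_zero, one_mul]
    congr 2
  rw [h1, h1]
  ring

theorem e1_ae (hTH : T_TH) (k : ℕ) :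
    ∀ᵐ X : Fin (k + 1) → Fin (k + 1) → ℂ, (e1 X).det ≠ 0 := by
  have h1 := (hTH (k + 1) 0 0).2
  have h2 : ∀ᵐ r : Fin (k + 1) → ℂ, r 0 ≠ 0 := by
    have h3 : (volume : Measure (Fin (k + 1) → ℂ)) {f | f 0 = 0} = 0 :=
      Measure.pi_hyperplane (fun _ : Fin (k + 1) => (volume : Measure ℂ)) 0 0
    rw [ae_iff]
    simpa using h3
  have h4 : ∀ᵐ X : Fin (k + 1) → Fin (k + 1) → ℂ, X 0 0 ≠ 0 :=
    (Measure.quasiMeasurePreserving_eval (fun _ : Fin (k + 1) =>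
      (volume : Measure (Fin (k + 1) → ℂ))) 0).ae h2
  filter_upwards [h1, h4] with X hX hX0
  rw [e1_det]
  rw [rep_det] at hX
  exact mul_ne_zero hX0 hX

theorem gs_int : ∫⁻ t : ℂ, ENNReal.ofReal (gs 1 t) = 1 := by
  have h1 : ∫ v : ℂ, Real.exp (-1 * ‖v‖ ^ 2) = (Real.pi / 1) ^ ((2 : ℝ) / 2) := by
    have := GaussianFourier.integral_rexp_neg_mul_sq_norm (V := ℂ) (b := 1) one_pos
    rwa [Complex.finrank_real_complex] at this
  have h2 : ∀ t : ℂ, gs 1 t = Real.pi⁻¹ * Real.exp (-1 * ‖t‖ ^ 2) := by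
    intro t
    unfold gs
    rw [mul_one, div_one, neg_one_mul]
  have h3 : ∫ t : ℂ, gs 1 t = 1 := by
    simp only [h2]
    rw [integral_const_mul, h1, div_one, div_self two_ne_zero, Real.rpow_one,
      inv_mul_cancel₀ Real.pi_ne_zero]
  have h4 : Integrable (fun t : ℂ => gs 1 t) := by
    refine Integrable.of_integral_ne_zero ?_
    rw [h3]
    exact one_ne_zero
  have h5 : ∀ t : ℂ, 0 ≤ gs 1 t := by
    intro t
    rw [h2]
    positivity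
  rw [← ofReal_integral_eq_lintegral_ofReal h4 (Filter.Eventually.of_forall h5), h3,
    ENNReal.ofReal_one]

theorem dH_bd {k : ℕ} (t : ℂ) (Y : Fin (k + 1 + 1) → ℂ) (hY : Y 0 ≠ 0) :
    0 < dH t Y ∧ dH t Y ≤ 1 := by
  have h0 : 0 < ‖Y 0‖ := norm_pos_iff.2 hY
  have h1 : 0 ≤ nsq (tl Y) := Finset.sum_nonneg fun i _ => by positivity
  have h2 : ‖Y 0‖ ^ 2 ≤ ‖Y 0‖ ^ 2 + ‖t‖ ^ 2 * nsq (tl Y) := by
    have : 0 ≤ ‖t‖ ^ 2 * nsq (tl Y) := by positivity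
    linarith
  have h3 : ‖Y 0‖ ≤ Real.sqrt (‖Y 0‖ ^ 2 + ‖t‖ ^ 2 * nsq (tl Y)) := Real.le_sqrt_of_sq_le h2
  have h4 : 0 < Real.sqrt (‖Y 0‖ ^ 2 + ‖t‖ ^ 2 * nsq (tl Y)) := h0.trans_le h3
  unfold dH
  exact ⟨div_pos h0 h4, (div_le_one h4).2 h3⟩

theorem lin_isH {N : ℕ} (A : Matrix (Fin N) (Fin N) ℂ) (hA : A.det ≠ 0) : IsH 1 (lin A) := by
  refine ⟨fun i => ?_, fun z hz => ?_⟩
  · unfold lin
    refine MvPolynomial.IsHomogeneous.sum _ _ _ fun j _ => ?_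
    have h1 := (MvPolynomial.isHomogeneous_C (Fin N) (A i j)).mul
      (MvPolynomial.isHomogeneous_X ℂ j)
    rwa [zero_add] at h1
  · rw [ev_lin] at hz
    exact Matrix.eq_zero_of_mulVec_eq_zero hA hz

theorem ell_meas {N : ℕ} : Measurable (ell : (Fin N → ℂ) → ℝ) := by
  unfold ell nsq
  fun_prop

theorem sh_meas {N : ℕ} : MeasurableSet {z : Fin N → ℂ | 0 ≤ ell z ∧ ell z < 1} :=
  (measurableSet_le measurable_const ell_meas).inter (measurableSet_lt ell_meas measurable_const)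

theorem ne_ae {k : ℕ} : ∀ᵐ r : Fin (k + 1) → ℂ, r 0 ≠ 0 := by
  have h3 : (volume : Measure (Fin (k + 1) → ℂ)) {f | f 0 = 0} = 0 :=
    Measure.pi_hyperplane (fun _ : Fin (k + 1) => (volume : Measure ℂ)) 0 0
  rw [ae_iff]
  simpa using h3

theorem hH_meas {k : ℕ} : Measurable fun p : ℝ × (Fin (k + 1 + 1) → ℂ) => hH p.1 p.2 := by
  unfold hH nsq
  fun_prop

theorem dH_meas {k : ℕ} : Measurable fun p : ℂ × (Fin (k + 1 + 1) → ℂ) => dH p.1 p.2 := by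
  unfold dH nsq tl
  fun_prop

theorem hH_nonneg {k : ℕ} (δ : ℝ) (y : Fin (k + 1 + 1) → ℂ) : 0 ≤ hH δ y := by
  have h1 : 0 ≤ nsq y := Finset.sum_nonneg fun i _ => by positivity
  unfold hH
  positivity

/-- The order of integration. -/
theorem chain {A E P : Type} [MeasurableSpace A] [MeasurableSpace E] [MeasurableSpace P]
    {μ : Measure A} {ρ : Measure E} {ν : Measure P} [SFinite μ] [SFinite ρ] [SFinite ν]
    (f : A → ENNReal) (c : E → ENNReal) (W : A → E → ENNReal) (Z : P → E → ENNReal)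
    (g : P → ENNReal) (C K : ENNReal) (hC : C ≠ ⊤) (hK : K ≠ ⊤) (hc : ∀ x, c x ≠ ⊤)
    (mc : Measurable c) (mW : Measurable fun p : A × E => W p.1 p.2)
    (mZ : Measurable fun p : E × P => Z p.2 p.1)
    (s1 : ∀ᵐ X ∂μ, f X ≤ ∫⁻ x, c x * W X x ∂ρ)
    (s3 : ∀ᵐ x ∂ρ, ∫⁻ X, W X x ∂μ ≤ C * ∫⁻ p, Z p x ∂ν)
    (s5 : ∀ᵐ p ∂ν, ∫⁻ x, c x * Z p x ∂ρ ≤ g p * K) :
    ∫⁻ X, f X ∂μ ≤ C * ((∫⁻ p, g p ∂ν) * K) := by
  calc ∫⁻ X, f X ∂μ ≤ ∫⁻ X, ∫⁻ x, c x * W X x ∂ρ ∂μ := lintegral_mono_ae s1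
    _ = ∫⁻ x, ∫⁻ X, c x * W X x ∂μ ∂ρ := by
      refine lintegral_lintegral_swap (Measurable.aemeasurable ?_)
      exact (mc.comp measurable_snd).mul mW
    _ ≤ ∫⁻ x, C * ∫⁻ p, c x * Z p x ∂ν ∂ρ := by
      refine lintegral_mono_ae ?_
      filter_upwards [s3] with x hx
      rw [lintegral_const_mul' _ _ (hc x), lintegral_const_mul' _ _ (hc x), mul_left_comm]
      exact mul_le_mul_right hx _
    _ = C * ∫⁻ x, ∫⁻ p, c x * Z p x ∂ν ∂ρ := lintegral_const_mul' _ _ hC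
    _ = C * ∫⁻ p, ∫⁻ x, c x * Z p x ∂ρ ∂ν := by
      congr 1
      refine lintegral_lintegral_swap (Measurable.aemeasurable ?_)
      exact (mc.comp measurable_fst).mul mZ
    _ ≤ C * ∫⁻ p, g p * K ∂ν := mul_le_mul_right (lintegral_mono_ae s5) _
    _ = C * ((∫⁻ p, g p ∂ν) * K) := by rw [lintegral_mul_const' _ _ hK]

section pieces

variable {k : ℕ}

/-- the density of `σ` -/
noncomputable def qf (σ : Form (Fin (k + 1 + 1)) (k + 1)) (z : Fin (k + 1 + 1) → ℂ) : ℝ :=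
  Q σ (fun _ : Fin 0 => ell) z

/-- the weight at `x` -/
noncomputable def cf (D : ℕ) (Φ : Fin (k + 1 + 1) → MvPolynomial (Fin (k + 1 + 1)) ℂ)
    (φ : (Fin (k + 1 + 1) → ℂ) → ℝ) (x : Fin (k + 1 + 1) → ℂ) : ℝ :=
  φ x * ((1 / (D : ℝ) ^ 2) * ‖(jac Φ x).det‖ ^ 2)

/-- the density of the mean -/
noncomputable def Wf (σ : Form (Fin (k + 1 + 1)) (k + 1))
    (X : Fin (k + 1 + 1) → Fin (k + 1 + 1) → ℂ) (y : Fin (k + 1 + 1) → ℂ) : ℝ :=
  gss X * (‖(e1 X).det‖ ^ 2 * qf σ ((e1 X).mulVec y))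

/-- the density in `(t, Y)` -/
noncomputable def Zf (σ : Form (Fin (k + 1 + 1)) (k + 1)) (p : ℂ × (Fin (k + 1 + 1) → ℂ))
    (y : Fin (k + 1 + 1) → ℂ) : ENNReal :=
  ENNReal.ofReal (gs 1 p.1) * ENNReal.ofReal (qf σ p.2 * hH (dH p.1 p.2) y)

theorem qf_meas (hS5 : T_S5) {σ : Form (Fin (k + 1 + 1)) (k + 1)} (hσ : ProjForm σ) :
    Measurable (qf σ) := meas_of_cont
  (hS5 (k + 1 + 1) (k + 1) 0 σ (fun _ => ell) (fun _ => 0) rfl hσ (fun j => j.elim0)).1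

theorem qf_nonneg (hP3 : T_P3) {σ : Form (Fin (k + 1 + 1)) (k + 1)} (hσ : ProjForm σ)
    (z : Fin (k + 1 + 1) → ℂ) (hz : z ≠ 0) : 0 ≤ qf σ z :=
  (hP3 (k + 1 + 1) (k + 1) 0 σ (fun _ => ell) rfl hσ (fun j => j.elim0)).1 z hz

theorem cf_meas {D : ℕ} {Φ : Fin (k + 1 + 1) → MvPolynomial (Fin (k + 1 + 1)) ℂ}
    {φ : (Fin (k + 1 + 1) → ℂ) → ℝ} (hφ : Hom0 φ) : Measurable (cf D Φ φ) :=
  (meas_of_cont hφ.smooth.continuousOn).mul
    ((((jac_cont Φ).matrix_det.norm.measurable).pow_const 2).const_mul _)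

theorem cf_nonneg {D : ℕ} {Φ : Fin (k + 1 + 1) → MvPolynomial (Fin (k + 1 + 1)) ℂ}
    {φ : (Fin (k + 1 + 1) → ℂ) → ℝ} (hφ0 : ∀ z, z ≠ 0 → 0 ≤ φ z) (x : Fin (k + 1 + 1) → ℂ)
    (hx : x ≠ 0) : 0 ≤ cf D Φ φ x := mul_nonneg (hφ0 x hx) (by positivity)

theorem gss_meas : Measurable fun X : Fin (k + 1 + 1) → Fin (k + 1 + 1) → ℂ => gss X := by
  unfold gss
  fun_prop

theorem Wf_meas (hS5 : T_S5) {σ : Form (Fin (k + 1 + 1)) (k + 1)} (hσ : ProjForm σ)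
    (Φ : Fin (k + 1 + 1) → MvPolynomial (Fin (k + 1 + 1)) ℂ) :
    Measurable fun p : (Fin (k + 1 + 1) → Fin (k + 1 + 1) → ℂ) × (Fin (k + 1 + 1) → ℂ) =>
      Wf σ p.1 (ev Φ p.2) := by
  have m1 : Measurable fun p : (Fin (k + 1 + 1) → Fin (k + 1 + 1) → ℂ) ×
      (Fin (k + 1 + 1) → ℂ) => gss p.1 := gss_meas.comp measurable_fst
  have m2 : Measurable fun p : (Fin (k + 1 + 1) → Fin (k + 1 + 1) → ℂ) ×
      (Fin (k + 1 + 1) → ℂ) => ‖(e1 p.1).det‖ ^ 2 :=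
    (((e1_cont.comp continuous_fst).matrix_det.norm).pow 2).measurable
  have m3 : Measurable fun p : (Fin (k + 1 + 1) → Fin (k + 1 + 1) → ℂ) ×
      (Fin (k + 1 + 1) → ℂ) => (e1 p.1).mulVec (ev Φ p.2) :=
    ((e1_cont.comp continuous_fst).matrix_mulVec ((ev_cont Φ).comp continuous_snd)).measurable
  exact m1.mul (m2.mul ((qf_meas hS5 hσ).comp m3))

theorem gs_meas : Measurable fun t : ℂ => gs 1 t := by
  unfold gs
  fun_prop

theorem Zf_meas (hS5 : T_S5) {σ : Form (Fin (k + 1 + 1)) (k + 1)} (hσ : ProjForm σ)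
    (Φ : Fin (k + 1 + 1) → MvPolynomial (Fin (k + 1 + 1)) ℂ) :
    Measurable fun p : (Fin (k + 1 + 1) → ℂ) × (ℂ × (Fin (k + 1 + 1) → ℂ)) =>
      Zf σ p.2 (ev Φ p.1) := by
  have m1 : Measurable fun p : (Fin (k + 1 + 1) → ℂ) × (ℂ × (Fin (k + 1 + 1) → ℂ)) =>
      gs 1 p.2.1 := gs_meas.comp (measurable_fst.comp measurable_snd)
  have m2 : Measurable fun p : (Fin (k + 1 + 1) → ℂ) × (ℂ × (Fin (k + 1 + 1) → ℂ)) =>
      qf σ p.2.2 := (qf_meas hS5 hσ).comp (measurable_snd.comp measurable_snd)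
  have m3 : Measurable fun p : (Fin (k + 1 + 1) → ℂ) × (ℂ × (Fin (k + 1 + 1) → ℂ)) =>
      hH (dH p.2.1 p.2.2) (ev Φ p.1) :=
    hH_meas.comp ((dH_meas.comp measurable_snd).prodMk
      ((ev_cont Φ).measurable.comp measurable_fst))
  exact m1.ennreal_ofReal.mul (m2.mul m3).ennreal_ofReal

theorem ne_of_zero {x : Fin (k + 1 + 1) → ℂ} (hx : x 0 ≠ 0) : x ≠ 0 :=
  fun h0 => hx (by rw [h0]; rfl)

theorem step1 (h1 : T_EA1) (hTH : T_TH) (hD8 : T_D8) (hD11 : T_D11) {D : ℕ}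
    {Φ : Fin (k + 1 + 1) → MvPolynomial (Fin (k + 1 + 1)) ℂ} {φ : (Fin (k + 1 + 1) → ℂ) → ℝ}
    {σ : Form (Fin (k + 1 + 1)) (k + 1)} (hD : 1 ≤ D) (hΦ : IsE D Φ)
    (hφ0 : ∀ z, z ≠ 0 → 0 ≤ φ z) (hσ : ProjForm σ) :
    ∀ᵐ X : Fin (k + 1 + 1) → Fin (k + 1 + 1) → ℂ,
      ENNReal.ofReal (gss X * am φ Φ σ (fun _ : Fin 0 => ell) (e1 X)) ≤
        ∫⁻ x in {z | 0 ≤ ell z ∧ ell z < 1},
          ENNReal.ofReal (cf D Φ φ x) * ENNReal.ofReal (Wf σ X (ev Φ x)) := by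
  filter_upwards [e1_ae hTH (k + 1)] with X hX
  have hG := hD11 (k + 1 + 1) 1 D (lin (e1 X)) Φ le_rfl hD (lin_isH _ hX) hΦ.isH
  have e1' : gss X * am φ Φ σ (fun _ : Fin 0 => ell) (e1 X) =
      ∫ x in {z | 0 ≤ ell z ∧ ell z < 1}, gss X * (φ x *
        Q (pull (cmp (lin (e1 X)) Φ) σ) (fun _ : Fin 0 => ell) x) := by
    rw [integral_const_mul]
    rfl
  rw [e1']
  refine (ofReal_int_le _).trans (le_of_eq (lintegral_congr_ae ?_))
  filter_upwards [ae_restrict_of_ae ne_ae] with x hx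
  have hxn := ne_of_zero hx
  have hevG : ev (cmp (lin (e1 X)) Φ) x = (e1 X).mulVec (ev Φ x) := by
    rw [(hD8 (k + 1 + 1) (k + 1) (lin (e1 X)) Φ σ x).1, ev_lin]
  have hjacG : jac (cmp (lin (e1 X)) Φ) x = e1 X * jac Φ x := by
    rw [(hD8 (k + 1 + 1) (k + 1) (lin (e1 X)) Φ σ x).2.1, jac_lin]
  have hne : ev (cmp (lin (e1 X)) Φ) x ≠ 0 := by
    intro h0
    exact hxn (hG.1.nd x h0)
  have h6 := h1 (k + 1) D (cmp (lin (e1 X)) Φ) σ hD
    (fun i => by have := hG.1.hom i; rwa [one_mul] at this) hσ x hxn hne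
  rw [h6, hevG, hjacG, Matrix.det_mul, norm_mul, ← ENNReal.ofReal_mul (cf_nonneg hφ0 x hxn)]
  congr 1
  simp only [cf, Wf, qf]
  ring

theorem pr_abs {E : Type*} [MeasurableSpace E] (μ : Measure ℂ) [SFinite μ] (ρ : Measure E)
    [SFinite ρ] (F : ℂ × E → ENNReal) (a : ℂ → ENNReal) (b : ℂ → E → ENNReal)
    (hF : Measurable F) (ha : ∀ t, a t ≠ ⊤) (h : ∀ t Y, F (t, Y) = a t * b t Y) :
    ∫⁻ p, F p ∂(μ.prod ρ) = ∫⁻ t, a t * ∫⁻ Y, b t Y ∂ρ ∂μ := by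
  rw [lintegral_prod F hF.aemeasurable]
  refine lintegral_congr fun t => ?_
  simp only [h]
  exact lintegral_const_mul' _ _ (ha t)

theorem zf_int {σ : Form (Fin (k + 1 + 1)) (k + 1)} {y : Fin (k + 1 + 1) → ℂ}
    (m : Measurable fun p : ℂ × (Fin (k + 1 + 1) → ℂ) => Zf σ p y) :
    ∫⁻ p, Zf σ p y ∂((volume : Measure ℂ).prod
      ((volume : Measure (Fin (k + 1 + 1) → ℂ)).restrict {z | 0 ≤ ell z ∧ ell z < 1})) =
      ∫⁻ t : ℂ, ENNReal.ofReal (gs 1 t) *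
        ∫⁻ Y in {z : Fin (k + 1 + 1) → ℂ | 0 ≤ ell z ∧ ell z < 1},
          ENNReal.ofReal (qf σ Y * hH (dH t Y) y) :=
  pr_abs _ _ (fun p => Zf σ p y) (fun t => ENNReal.ofReal (gs 1 t))
    (fun t Y => ENNReal.ofReal (qf σ Y * hH (dH t Y) y)) m
    (fun _ => ENNReal.ofReal_ne_top) (fun _ _ => rfl)

theorem ev_zero_ne {D : ℕ} {Φ : Fin (k + 1 + 1) → MvPolynomial (Fin (k + 1 + 1)) ℂ}
    (hΦ : IsE D Φ) {x : Fin (k + 1 + 1) → ℂ} (hx : x 0 ≠ 0) : ev Φ x 0 ≠ 0 := by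
  have h1 : ev Φ x 0 = MvPolynomial.eval x (Φ 0) := rfl
  rw [h1, hΦ.zero, map_pow, MvPolynomial.eval_X]
  exact pow_ne_zero _ hx

theorem meas_slice {A B : Type*} [MeasurableSpace A] [MeasurableSpace B] (x : A)
    (f : A × B → ENNReal) (h : Measurable f) : Measurable fun p : B => f (x, p) :=
  h.comp measurable_prodMk_left

theorem zf_slice (hS5 : T_S5) {Φ : Fin (k + 1 + 1) → MvPolynomial (Fin (k + 1 + 1)) ℂ}
    {σ : Form (Fin (k + 1 + 1)) (k + 1)} (hσ : ProjForm σ) (x : Fin (k + 1 + 1) → ℂ) :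
    Measurable fun p : ℂ × (Fin (k + 1 + 1) → ℂ) =>
      (fun p : (Fin (k + 1 + 1) → ℂ) × (ℂ × (Fin (k + 1 + 1) → ℂ)) =>
        Zf σ p.2 (ev Φ p.1)) (x, p) := meas_slice x _ (Zf_meas hS5 hσ Φ)

theorem zf_slice' (hS5 : T_S5) {Φ : Fin (k + 1 + 1) → MvPolynomial (Fin (k + 1 + 1)) ℂ}
    {σ : Form (Fin (k + 1 + 1)) (k + 1)} (hσ : ProjForm σ) (x : Fin (k + 1 + 1) → ℂ) :
    Measurable fun p : ℂ × (Fin (k + 1 + 1) → ℂ) => Zf σ p (ev Φ x) := zf_slice hS5 hσ x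

theorem step3 (hS5 : T_S5) {C5 : ENNReal} {D : ℕ}
    {Φ : Fin (k + 1 + 1) → MvPolynomial (Fin (k + 1 + 1)) ℂ}
    {σ : Form (Fin (k + 1 + 1)) (k + 1)} (hΦ : IsE D Φ) (hσ : ProjForm σ)
    (h5' : ∀ y : Fin (k + 1 + 1) → ℂ, y 0 ≠ 0 →
      ∫⁻ X : Fin (k + 1 + 1) → Fin (k + 1 + 1) → ℂ, ENNReal.ofReal (Wf σ X y) ≤
        C5 * ∫⁻ t : ℂ, ENNReal.ofReal (gs 1 t) *
          ∫⁻ Y in {z : Fin (k + 1 + 1) → ℂ | 0 ≤ ell z ∧ ell z < 1},
            ENNReal.ofReal (qf σ Y * hH (dH t Y) y)) :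
    ∀ᵐ x ∂((volume : Measure (Fin (k + 1 + 1) → ℂ)).restrict {z | 0 ≤ ell z ∧ ell z < 1}),
      ∫⁻ X, ENNReal.ofReal (Wf σ X (ev Φ x)) ≤
        C5 * ∫⁻ p, Zf σ p (ev Φ x) ∂((volume : Measure ℂ).prod
          ((volume : Measure (Fin (k + 1 + 1) → ℂ)).restrict {z | 0 ≤ ell z ∧ ell z < 1})) := by
  have hae : ∀ᵐ x : Fin (k + 1 + 1) → ℂ
      ∂((volume : Measure (Fin (k + 1 + 1) → ℂ)).restrict {z | 0 ≤ ell z ∧ ell z < 1}),
      x 0 ≠ 0 := ae_restrict_of_ae ne_ae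
  refine hae.mono fun x hx => ?_
  rw [zf_int (zf_slice' hS5 hσ x)]
  exact h5' (ev Φ x) (ev_zero_ne hΦ hx)

theorem step5 (h1 : T_EA1) (hP1 : T_P1) (hP3 : T_P3) (hD5 : T_D5) {c3 C3 : ℝ} (hc3 : 0 < c3)
    {D : ℕ} {Φ : Fin (k + 1 + 1) → MvPolynomial (Fin (k + 1 + 1)) ℂ}
    {φ : (Fin (k + 1 + 1) → ℂ) → ℝ} {σ : Form (Fin (k + 1 + 1)) (k + 1)} {B : ℝ}
    (h3' : ∀ δ : ℝ, 0 < δ → δ ≤ 1 →
      ProjForm (tauH (k := k) δ) ∧ ∀ y : Fin (k + 1 + 1) → ℂ, y ≠ 0 →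
      c3 * hH δ y ≤ Q (tauH (k := k) δ) (fun _ : Fin 0 => ell) y ∧
      Q (tauH (k := k) δ) (fun _ : Fin 0 => ell) y ≤ C3 * hH δ y)
    (hD : 1 ≤ D) (hΦ : IsE D Φ) (hφ : Hom0 φ) (hφ0 : ∀ z, z ≠ 0 → 0 ≤ φ z) (hσ : ProjForm σ)
    (hpair : ∀ δ : ℝ, 0 < δ → δ ≤ 1 →
      pair φ (pull Φ (tauH (k := k) δ)) (fun _ : Fin 0 => ell) ≤ B) :
    ∀ᵐ p ∂((volume : Measure ℂ).prod
        ((volume : Measure (Fin (k + 1 + 1) → ℂ)).restrict {z | 0 ≤ ell z ∧ ell z < 1})),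
      ∫⁻ x in {z | 0 ≤ ell z ∧ ell z < 1}, ENNReal.ofReal (cf D Φ φ x) * Zf σ p (ev Φ x) ≤
        (ENNReal.ofReal (gs 1 p.1) * ENNReal.ofReal (qf σ p.2)) *
          ENNReal.ofReal (B / c3) := by
  have hae : ∀ᵐ x : Fin (k + 1 + 1) → ℂ
      ∂((volume : Measure (Fin (k + 1 + 1) → ℂ)).restrict {z | 0 ≤ ell z ∧ ell z < 1}),
      x 0 ≠ 0 := ae_restrict_of_ae ne_ae
  have hae2 : ∀ᵐ p ∂((volume : Measure ℂ).prod
      ((volume : Measure (Fin (k + 1 + 1) → ℂ)).restrict {z | 0 ≤ ell z ∧ ell z < 1})),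
      p.2 0 ≠ 0 := Measure.quasiMeasurePreserving_snd.ae hae
  filter_upwards [hae2] with p hp
  obtain ⟨hd0, hd1⟩ := dH_bd p.1 p.2 hp
  obtain ⟨hτ, hτ2⟩ := h3' (dH p.1 p.2) hd0 hd1
  have hpl : ProjForm (pull Φ (tauH (k := k) (dH p.1 p.2))) :=
    hD5 (k + 1 + 1) (k + 1) D Φ _ hD hΦ.isH hτ
  have hint := (hP1 (k + 1 + 1) (k + 1) 0 (pull Φ (tauH (k := k) (dH p.1 p.2))) (fun _ => ell)
    (fun _ => 0) rfl hpl (fun j => j.elim0)).2 φ hφ.smooth.continuousOn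
  have hnn := (hP3 (k + 1 + 1) (k + 1) 0 (pull Φ (tauH (k := k) (dH p.1 p.2)))
    (fun _ => ell) rfl hpl (fun j => j.elim0)).1
  have h7 : ∫⁻ x in {z | 0 ≤ ell z ∧ ell z < 1},
      ENNReal.ofReal (cf D Φ φ x) * ENNReal.ofReal (hH (dH p.1 p.2) (ev Φ x)) ≤
      ENNReal.ofReal (B / c3) := by
    calc ∫⁻ x in {z | 0 ≤ ell z ∧ ell z < 1},
        ENNReal.ofReal (cf D Φ φ x) * ENNReal.ofReal (hH (dH p.1 p.2) (ev Φ x)) ≤
        ∫⁻ x in {z | 0 ≤ ell z ∧ ell z < 1}, ENNReal.ofReal (1 / c3) * ENNReal.ofReal (φ x *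
          Q (pull Φ (tauH (k := k) (dH p.1 p.2))) (fun _ : Fin 0 => ell) x) := by
          refine lintegral_mono_ae ?_
          filter_upwards [hae] with x hx
          have hxn := ne_of_zero hx
          have hev : ev Φ x ≠ 0 := fun h0 => hxn (hΦ.isH.nd x h0)
          have h8 := h1 (k + 1) D Φ (tauH (k := k) (dH p.1 p.2)) hD hΦ.isH.hom hτ x hxn hev
          rw [h8, ← ENNReal.ofReal_mul (cf_nonneg hφ0 x hxn),
            ← ENNReal.ofReal_mul (by positivity)]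
          refine ENNReal.ofReal_le_ofReal ?_
          have h9 := (hτ2 (ev Φ x) hev).1
          have h10 : hH (dH p.1 p.2) (ev Φ x) ≤ 1 / c3 *
              Q (tauH (k := k) (dH p.1 p.2)) (fun _ : Fin 0 => ell) (ev Φ x) := by
            rw [one_div, le_inv_mul_iff₀ hc3]
            exact h9
          calc cf D Φ φ x * hH (dH p.1 p.2) (ev Φ x) ≤ cf D Φ φ x * (1 / c3 *
              Q (tauH (k := k) (dH p.1 p.2)) (fun _ : Fin 0 => ell) (ev Φ x)) :=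
                mul_le_mul_of_nonneg_left h10 (cf_nonneg hφ0 x hxn)
            _ = _ := by
              simp only [cf]
              ring
      _ = ENNReal.ofReal (1 / c3) * ENNReal.ofReal
          (pair φ (pull Φ (tauH (k := k) (dH p.1 p.2))) (fun _ : Fin 0 => ell)) := by
          rw [lintegral_const_mul' _ _ ENNReal.ofReal_ne_top]
          congr 1
          refine (ofReal_integral_eq_lintegral_ofReal hint ?_).symm
          filter_upwards [hae] with x hx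
          exact mul_nonneg (hφ0 x (ne_of_zero hx)) (hnn x (ne_of_zero hx))
      _ ≤ ENNReal.ofReal (1 / c3) * ENNReal.ofReal B :=
          mul_le_mul_right (ENNReal.ofReal_le_ofReal (hpair _ hd0 hd1)) _
      _ = ENNReal.ofReal (B / c3) := by
          rw [← ENNReal.ofReal_mul (by positivity)]
          congr 1
          ring
  calc ∫⁻ x in {z | 0 ≤ ell z ∧ ell z < 1}, ENNReal.ofReal (cf D Φ φ x) * Zf σ p (ev Φ x) =
      ∫⁻ x in {z | 0 ≤ ell z ∧ ell z < 1},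
        (ENNReal.ofReal (gs 1 p.1) * ENNReal.ofReal (qf σ p.2)) *
        (ENNReal.ofReal (cf D Φ φ x) * ENNReal.ofReal (hH (dH p.1 p.2) (ev Φ x))) := by
        refine lintegral_congr fun x => ?_
        unfold Zf
        rw [ENNReal.ofReal_mul (qf_nonneg hP3 hσ p.2 (ne_of_zero hp))]
        ring
    _ = (ENNReal.ofReal (gs 1 p.1) * ENNReal.ofReal (qf σ p.2)) *
        ∫⁻ x in {z | 0 ≤ ell z ∧ ell z < 1},
          ENNReal.ofReal (cf D Φ φ x) * ENNReal.ofReal (hH (dH p.1 p.2) (ev Φ x)) :=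
        lintegral_const_mul' _ _
          (ENNReal.mul_ne_top ENNReal.ofReal_ne_top ENNReal.ofReal_ne_top)
    _ ≤ _ := mul_le_mul_right h7 _

theorem mass_eq (hP1 : T_P1) (hP3 : T_P3) {σ : Form (Fin (k + 1 + 1)) (k + 1)}
    (hσ : ProjForm σ) :
    ∫⁻ Y in {z | 0 ≤ ell z ∧ ell z < 1}, ENNReal.ofReal (qf σ Y) =
      ENNReal.ofReal (mass 0 σ) := by
  have hint := (hP1 (k + 1 + 1) (k + 1) 0 σ (fun _ => ell)
    (fun _ => 0) rfl hσ (fun j => j.elim0)).2 (fun _ => 1) continuousOn_const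
  have h8 : mass 0 σ = ∫ Y in {z | 0 ≤ ell z ∧ ell z < 1}, 1 * qf σ Y := rfl
  have h9 : IntegrableOn (fun Y => 1 * qf σ Y) {z | 0 ≤ ell z ∧ ell z < 1} := hint
  rw [h8, ofReal_integral_eq_lintegral_ofReal h9 ?_]
  · simp only [one_mul]
  · filter_upwards [ae_restrict_of_ae ne_ae] with x hx
    rw [one_mul]
    exact qf_nonneg hP3 hσ x (ne_of_zero hx)

end pieces

theorem pf_EPA (h1 : T_EA1) (h3 : T_EA3) (h5 : T_EA5) (hP1 : T_P1) (hP3 : T_P3) (hS5 : T_S5)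
    (hTH : T_TH) (hD5 : T_D5) (hD8 : T_D8) (hD11 : T_D11) : T_EPA := by
  intro k
  obtain ⟨C5, hC5, h5'⟩ := h5 k
  obtain ⟨c3, C3, hc3, hC3, h3'⟩ := h3 k
  refine ⟨C5.toReal / c3 + 1, by positivity, ?_⟩
  intro D Φ hD hΦ φ u σ B hφ hφ0 hσ hB hpair
  have hu : u = fun _ : Fin 0 => ell := by
    funext j
    exact j.elim0
  subst hu
  have hm0 : 0 ≤ mass 0 σ :=
    (hP3 (k + 1 + 1) (k + 1) 0 σ (fun _ => ell) rfl hσ (fun j => j.elim0)).2.1 (fun _ => 1)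
      (fun _ _ => zero_le_one)
  have hch := chain
    (fun X => ENNReal.ofReal (gss X * am φ Φ σ (fun _ : Fin 0 => ell) (e1 X)))
    (fun x => ENNReal.ofReal (cf D Φ φ x)) (fun X x => ENNReal.ofReal (Wf σ X (ev Φ x)))
    (fun p x => Zf σ p (ev Φ x))
    (fun p => ENNReal.ofReal (gs 1 p.1) * ENNReal.ofReal (qf σ p.2)) C5
    (ENNReal.ofReal (B / c3)) hC5 ENNReal.ofReal_ne_top (fun _ => ENNReal.ofReal_ne_top)
    (cf_meas hφ).ennreal_ofReal (Wf_meas hS5 hσ Φ).ennreal_ofReal (Zf_meas hS5 hσ Φ)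
    (step1 h1 hTH hD8 hD11 hD hΦ hφ0 hσ) (step3 hS5 hΦ hσ (h5' σ hσ))
    (step5 h1 hP1 hP3 hD5 hc3 h3' hD hΦ hφ hφ0 hσ hpair)
  rw [lintegral_prod_mul gs_meas.ennreal_ofReal.aemeasurable
    (qf_meas hS5 hσ).ennreal_ofReal.aemeasurable, gs_int, one_mul, mass_eq hP1 hP3 hσ] at hch
  have hfin : ENNReal.ofReal (∫ X : Fin (k + 1 + 1) → Fin (k + 1 + 1) → ℂ,
      gss X * am φ Φ σ (fun _ : Fin 0 => ell) (e1 X)) ≤
      ENNReal.ofReal (C5.toReal * (mass 0 σ * (B / c3))) := by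
    refine (ofReal_int_le _).trans (hch.trans (le_of_eq ?_))
    rw [ENNReal.ofReal_mul ENNReal.toReal_nonneg, ENNReal.ofReal_toReal hC5,
      ENNReal.ofReal_mul hm0]
  have hC0 : 0 ≤ C5.toReal := ENNReal.toReal_nonneg
  have h10 := (ENNReal.ofReal_le_ofReal_iff (by positivity)).1 hfin
  refine h10.trans ?_
  have h11 : 0 ≤ B * mass 0 σ := mul_nonneg hB hm0
  have h12 : C5.toReal * (mass 0 σ * (B / c3)) = C5.toReal / c3 * (B * mass 0 σ) := by ring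
  rw [h12, mul_assoc]
  nlinarith

end Pool.Agent.H13.EHD
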